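import Pool.Agent.Lib.MP_defcf3_al.CL.IfaceB

/-!
Part (B): characters of the multiplicative group of K_P given on polynomials of degree less than deg P.
-/

open Polynomial

namespace CL

universe u

/-- Elements of K_P as polynomials. -/
structure RepD (F : Type u) [Field F] (P : F[X]) [Fact (Irreducible P)] (rp : AdjoinRoot P → F[X]) : Prop where
  mkr : ∀ x, AdjoinRoot.mk P (rp x) = x
  deg : ∀ x, (rp x).natDegree < P.natDegree
  rpm : ∀ A : F[X], A.natDegree < P.natDegree → rp (AdjoinRoot.mk P A) = A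
  mul : ∀ x y, rp (x * y) = (rp x * rp y) %ₘ P
  sub : ∀ x y, rp (x - y) = rp x - rp y
  zero : ∀ x, rp x = 0 ↔ x = 0
  one : rp 1 = 1
  sc : ∀ c : F, rp (algebraMap F (AdjoinRoot P) c) = C c

section Basics

variable {F : Type u} [Field F] {P : F[X]} [Fact (Irreducible P)] {rp : AdjoinRoot P → F[X]}

theorem RepD.mk_ne (h : RepD F P rp) {A : F[X]} (hA : A ≠ 0) (hd : A.natDegree < P.natDegree) :
    AdjoinRoot.mk P A ≠ 0 := by
  intro h0
  apply hA
  rw [← h.rpm A hd, (h.zero _).2 h0]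

theorem RepD.rp_ne (h : RepD F P rp) {x : AdjoinRoot P} (hx : x ≠ 0) : rp x ≠ 0 := fun h0 => hx ((h.zero x).1 h0)

theorem RepD.mk_mod (h : RepD F P rp) (hm : P.Monic) (A : F[X]) : AdjoinRoot.mk P (A %ₘ P) = AdjoinRoot.mk P A := by
  rw [AdjoinRoot.mk_eq_mk]
  refine ⟨-(A /ₘ P), ?_⟩
  have := modByMonic_add_div A P
  linear_combination this

theorem RepD.mod_eq (h : RepD F P rp) (hm : P.Monic) (A : F[X]) (hP : 1 ≤ P.natDegree) :
    A %ₘ P = rp (AdjoinRoot.mk P A) := by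
  rw [← h.mk_mod hm A, h.rpm]
  exact natDegree_modByMonic_lt _ hm (by rintro rfl; simp at hP)

theorem RepD.mul_ne (h : RepD F P rp) (hm : P.Monic) (hP : 1 ≤ P.natDegree) {A B : F[X]} (hA : A ≠ 0)
    (hd : A.natDegree < P.natDegree) (hB : B ≠ 0) (hd' : B.natDegree < P.natDegree) :
    (A * B) %ₘ P ≠ 0 ∧ ((A * B) %ₘ P).natDegree < P.natDegree := by
  rw [h.mod_eq hm _ hP]
  refine ⟨h.rp_ne ?_, h.deg _⟩
  rw [map_mul]
  exact mul_ne_zero (h.mk_ne hA hd) (h.mk_ne hB hd')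

theorem RepD.pow_ne (h : RepD F P rp) (hm : P.Monic) (hP : 1 ≤ P.natDegree) {A : F[X]} (hA : A ≠ 0)
    (hd : A.natDegree < P.natDegree) (k : ℕ) : (A ^ k) %ₘ P ≠ 0 ∧ ((A ^ k) %ₘ P).natDegree < P.natDegree := by
  rw [h.mod_eq hm _ hP]
  refine ⟨h.rp_ne ?_, h.deg _⟩
  rw [map_pow]
  exact pow_ne_zero _ (h.mk_ne hA hd)

theorem RepD.pow_succ (h : RepD F P rp) (hm : P.Monic) (hP : 1 ≤ P.natDegree) (A : F[X]) (k : ℕ) :
    (((A ^ k) %ₘ P) * A) %ₘ P = (A ^ (k + 1)) %ₘ P := by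
  rw [h.mod_eq hm _ hP, h.mod_eq hm (A ^ (k + 1)) hP, map_mul, h.mk_mod hm, _root_.pow_succ, map_mul]

theorem RepD.exists_inv (h : RepD F P rp) (hm : P.Monic) (hP : 1 ≤ P.natDegree) {B : F[X]} (hB : B ≠ 0)
    (hd : B.natDegree < P.natDegree) : ∃ B' : F[X], B' ≠ 0 ∧ B'.natDegree < P.natDegree ∧ (B * B') %ₘ P = 1 := by
  refine ⟨rp (AdjoinRoot.mk P B)⁻¹, h.rp_ne (inv_ne_zero (h.mk_ne hB hd)), h.deg _, ?_⟩
  rw [h.mod_eq hm _ hP, map_mul, h.mkr, mul_inv_cancel₀ (h.mk_ne hB hd), h.one]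

theorem one_mul_mod (hm : P.Monic) (hP : 1 ≤ P.natDegree) {A : F[X]} (hd : A.natDegree < P.natDegree) :
    (1 * A) %ₘ P = A := by
  rw [one_mul, modByMonic_eq_self_iff hm]
  exact degree_lt_degree hd

end Basics

/-- A character of K_P, on polynomials. -/
structure Chr {F : Type u} [Field F] (P : F[X]) {T : Type u} [AddCommGroup T] (ZZ : Set (ValuationSubring F))
    (G : F[X] → T) : Prop where
  mul : ∀ A B : F[X], A ≠ 0 → A.natDegree < P.natDegree → B ≠ 0 → B.natDegree < P.natDegree →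
    G ((A * B) %ₘ P) = G A + G B
  triv : ∀ A : F[X], A ≠ 0 → A.natDegree < P.natDegree → (∀ V ∈ ZZ, PSim V A 1) → G A = 0

section Chars

variable {F : Type u} [Field F] {P : F[X]} [Fact (Irreducible P)] {rp : AdjoinRoot P → F[X]}
variable {T : Type u} [AddCommGroup T] {ZZ : Set (ValuationSubring F)} {G : F[X] → T}

theorem one_ne_deg (hP : 1 ≤ P.natDegree) : (1 : F[X]).natDegree < P.natDegree := by
  rw [natDegree_one]
  exact hP

/-- A multiplicative function vanishes at 1. -/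
theorem mul_one_zero (hm : P.Monic) (hP : 1 ≤ P.natDegree)
    (hG : ∀ A B : F[X], A ≠ 0 → A.natDegree < P.natDegree → B ≠ 0 → B.natDegree < P.natDegree →
      G ((A * B) %ₘ P) = G A + G B) : G 1 = 0 := by
  have := hG 1 1 one_ne_zero (one_ne_deg hP) one_ne_zero (one_ne_deg hP)
  rw [one_mul_mod hm hP (one_ne_deg hP)] at this
  simpa using this

theorem Chr.congr (hG : Chr P ZZ G) (hS : SimStatement.{u}) (h : RepD F P rp) (hm : P.Monic) (hP : 1 ≤ P.natDegree)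
    (hI : ∀ V ∈ ZZ, Inert V P) {A B : F[X]} (hA : A ≠ 0) (hd : A.natDegree < P.natDegree) (hB : B ≠ 0)
    (hd' : B.natDegree < P.natDegree) (hAB : ∀ V ∈ ZZ, PSim V A B) : G A = G B := by
  obtain ⟨B', hB', hd'', hBB⟩ := h.exists_inv hm hP hB hd'
  have h1 := hG.mul A B' hA hd hB' hd''
  have h2 := hG.mul B B' hB hd' hB' hd''
  rw [hBB, mul_one_zero hm hP hG.mul] at h2
  have h3 : G ((A * B') %ₘ P) = 0 := by
    refine hG.triv _ (h.mul_ne hm hP hA hd hB' hd'').1 (h.mul_ne hm hP hA hd hB' hd'').2 fun V hV => ?_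
    obtain ⟨s1, s2, s3, s4, s5, s6, s7, s8, s9⟩ := hS F V
    have := s6 P A B B' B' hm hP (hI V hV) hd hd' hd'' hd'' (hAB V hV) (s1 B' hB')
    rwa [hBB] at this
  rw [h3] at h1
  have : G A = -G B' := eq_neg_of_add_eq_zero_left h1.symm
  rw [this]
  exact (eq_neg_of_add_eq_zero_left h2.symm).symm

theorem mul_pow (h : RepD F P rp) (hm : P.Monic) (hP : 1 ≤ P.natDegree)
    (hG : ∀ A B : F[X], A ≠ 0 → A.natDegree < P.natDegree → B ≠ 0 → B.natDegree < P.natDegree →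
      G ((A * B) %ₘ P) = G A + G B) {A : F[X]} (hA : A ≠ 0) (hd : A.natDegree < P.natDegree) (k : ℕ) :
    G ((A ^ k) %ₘ P) = k • G A := by
  induction k with
  | zero =>
    have : ((A ^ 0) %ₘ P) = 1 := by
      have := one_mul_mod hm hP (one_ne_deg (P := P) hP)
      simpa using this
    rw [this, mul_one_zero hm hP hG, zero_smul]
  | succ k ih =>
    rw [← h.pow_succ hm hP, hG _ _ (h.pow_ne hm hP hA hd k).1 (h.pow_ne hm hP hA hd k).2 hA hd, ih, succ_nsmul]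

theorem sc_mod (hm : P.Monic) (hP : 1 ≤ P.natDegree) (c : F) {A : F[X]} (hd : A.natDegree < P.natDegree) :
    (C c * A) %ₘ P = C c * A := by
  rw [modByMonic_eq_self_iff hm]
  refine degree_lt_degree (lt_of_le_of_lt (natDegree_C_mul_le c A) hd)

/-- The scalar trick: an additive function which is 0 on scalars and on units at ZZ is 0. -/
theorem unit_red (h : RepD F P rp) (hm : P.Monic) (hP : 1 ≤ P.natDegree) {p : ℕ} (hp : p.Prime)
    (hrp : P.natDegree < p) (hT : ∀ t : T, p • t = 0)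
    (hG : ∀ A B : F[X], A ≠ 0 → A.natDegree < P.natDegree → B ≠ 0 → B.natDegree < P.natDegree →
      G ((A * B) %ₘ P) = G A + G B)
    (hc : ∀ c : F, c ≠ 0 → G (C c) = 0)
    (hN : ∀ A : F[X], A ≠ 0 → A.natDegree < P.natDegree → ∃ c : F, c ≠ 0 ∧ ∀ V ∈ ZZ,
      pn V (C c * ((A ^ P.natDegree) %ₘ P)) = 1)
    (hU : ∀ A : F[X], A ≠ 0 → A.natDegree < P.natDegree → (∀ V ∈ ZZ, pn V A = 1) → G A = 0)
    {A : F[X]} (hA : A ≠ 0) (hd : A.natDegree < P.natDegree) : G A = 0 := by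
  obtain ⟨c, hc0, hcV⟩ := hN A hA hd
  obtain ⟨hq, hqd⟩ := h.pow_ne hm hP hA hd P.natDegree
  have hC0 : (C c : F[X]) ≠ 0 := by simpa using hc0
  have hCd : (C c : F[X]).natDegree < P.natDegree := by rw [natDegree_C]; exact hP
  have h1 := hG (C c) ((A ^ P.natDegree) %ₘ P) hC0 hCd hq hqd
  rw [sc_mod hm hP c hqd, hc c hc0, zero_add, mul_pow h hm hP hG hA hd] at h1
  have h2 : G (C c * ((A ^ P.natDegree) %ₘ P)) = 0 :=
    hU _ (mul_ne_zero hC0 hq) (lt_of_le_of_lt (natDegree_C_mul_le c _) hqd) hcV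
  rw [h2] at h1
  have hcop : Nat.Coprime P.natDegree p :=
    ((Nat.Prime.coprime_iff_not_dvd hp).2 (Nat.not_dvd_of_pos_of_lt (by omega) hrp)).symm
  obtain ⟨a, b, hab⟩ : ∃ a b : ℤ, a * P.natDegree + b * p = 1 := by
    have := Nat.isCoprime_iff_coprime.2 hcop
    obtain ⟨a, b, hab⟩ := this
    exact ⟨a, b, hab⟩
  have h3 : (1 : ℤ) • G A = 0 := by
    rw [← hab, add_smul, mul_smul, mul_smul, natCast_zsmul, natCast_zsmul, ← h1, hT]
    simp
  simpa using h3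

end Chars

end CL
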