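import Pool.Agent.Lib.MP_defcf3_al.CL.H82.Chr

/-!
Part (B): from the function E on polynomials to the symbol S on K_P.
-/

open Polynomial

namespace CL

universe u

section Core

variable {F : Type u} [Field F] {l p e n r : ℕ} {Z : Set (ValuationSubring F)} {P : F[X]} {a : ℕ} {f : F}
  {D : ℕ} {Cp : F[X]} {E : ℕ} {cont : F[X] → F} {H : F → F → F} {K mm : ℕ}

theorem Ctx.inert (hC : Ctx F l p e n r Z P a f D Cp E cont H K mm) {V : ValuationSubring F}
    (hV : V ∈ Za Z l e n a P) : Inert V P := hV.1.2.1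

theorem Ctx.anis (hC : Ctx F l p e n r Z P a f D Cp E cont H K mm) {V : ValuationSubring F}
    (hV : V ∈ Bd Z (QQ l e n) P) : Anis V D Cp := by
  refine hC.ani.an P V hC.mon ?_ ?_ hV.2.1 hV.2.2
  · rw [hC.deg]; exact hC.num.r2
  · rw [hC.deg]; exact hC.num.rn.le

theorem Ctx.f_lt (hC : Ctx F l p e n r Z P a f D Cp E cont H K mm) {V : ValuationSubring F}
    (hV : V ∈ Za Z l e n a P) : V.valuation f < 1 := (hC.fB V hV.1).2 hV

theorem Ani.coV (hA : Ani F l e n D Cp) (V : ValuationSubring F) : CoV V Cp := by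
  intro i
  obtain ⟨m, hm⟩ := hA.pf i
  rw [hm]
  exact intCast_mem V m

theorem PA.mono {m m' : ℕ} (hC : Ctx F l p e n r Z P a f D Cp E cont H K mm) (hmm : m ≤ m') {X : F[X]}
    (hX : PA Z l e n a r P f m X) : PA Z l e n a r P f m' X :=
  ⟨hX.1, hX.2.1, fun V hV => ⟨(pow_le_pow_right_of_le_one' (hC.f_lt hV).le hmm).trans (hX.2.2 V hV).1,
    (hX.2.2 V hV).2⟩⟩

end Core

end CL
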